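import Pool.Agent.Gab7d_h87.Sum

/-!
# Lists of pairs
-/

set_option autoImplicit false

namespace Pool.Agent.Gab7d_h87

open Pool.Agent.Gabow87

variable {α : Type*}

/-- the first entries -/
def F (L : List (α × α)) : Set α := {x | x ∈ L.map Prod.fst}
/-- the second entries -/
def S (L : List (α × α)) : Set α := {x | x ∈ L.map Prod.snd}

/-- for every split of the list both mixed sets have the property -/
def LGood (P : Set α → Prop) (L : List (α × α)) : Prop :=
  ∀ L₁ L₂, L = L₁ ++ L₂ → P (F L₂ ∪ S L₁) ∧ P (S L₂ ∪ F L₁)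

/-- the two sets can be listed in pairs such that all mixed sets have the property -/
def Ord (P : Set α → Prop) (B B' : Set α) : Prop :=
  ∃ L : List (α × α), (L.map Prod.fst).Nodup ∧ (L.map Prod.snd).Nodup ∧ F L = B ∧ S L = B' ∧
    LGood P L

theorem F_take {n : ℕ} (u v : Fin n → α) (k : ℕ) :
    F ((List.ofFn fun i => (u i, v i)).take k) = {x | ∃ j : Fin n, j.val < k ∧ x = u j} := by
  ext x
  simp only [F, Set.mem_ofPred_eq, List.mem_map, List.mem_take_iff_getElem, List.length_ofFn,
    List.getElem_ofFn]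
  constructor
  · rintro ⟨_, ⟨i, hi, rfl⟩, rfl⟩
    exact ⟨⟨i, by omega⟩, by change i < k; omega, rfl⟩
  · rintro ⟨j, hj, rfl⟩
    exact ⟨_, ⟨j.val, by have := j.isLt; omega, rfl⟩, rfl⟩

theorem S_take {n : ℕ} (u v : Fin n → α) (k : ℕ) :
    S ((List.ofFn fun i => (u i, v i)).take k) = {x | ∃ j : Fin n, j.val < k ∧ x = v j} := by
  ext x
  simp only [S, Set.mem_ofPred_eq, List.mem_map, List.mem_take_iff_getElem, List.length_ofFn,
    List.getElem_ofFn]
  constructor
  · rintro ⟨_, ⟨i, hi, rfl⟩, rfl⟩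
    exact ⟨⟨i, by omega⟩, by change i < k; omega, rfl⟩
  · rintro ⟨j, hj, rfl⟩
    exact ⟨_, ⟨j.val, by have := j.isLt; omega, rfl⟩, rfl⟩

theorem F_drop {n : ℕ} (u v : Fin n → α) (k : ℕ) :
    F ((List.ofFn fun i => (u i, v i)).drop k) = {x | ∃ j : Fin n, k ≤ j.val ∧ x = u j} := by
  ext x
  simp only [F, Set.mem_ofPred_eq, List.mem_map, List.mem_drop_iff_getElem, List.length_ofFn,
    List.getElem_ofFn]
  constructor
  · rintro ⟨_, ⟨i, hi, rfl⟩, rfl⟩
    exact ⟨⟨k + i, by omega⟩, by change k ≤ k + i; omega, rfl⟩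
  · rintro ⟨j, hj, rfl⟩
    have := j.isLt
    have e : (⟨k + (j.val - k), by omega⟩ : Fin n) = j :=
      Fin.ext (by change k + (j.val - k) = j.val; omega)
    refine ⟨(u ⟨k + (j.val - k), by omega⟩, v ⟨k + (j.val - k), by omega⟩),
      ⟨j.val - k, by omega, rfl⟩, ?_⟩
    rw [e]

theorem S_drop {n : ℕ} (u v : Fin n → α) (k : ℕ) :
    S ((List.ofFn fun i => (u i, v i)).drop k) = {x | ∃ j : Fin n, k ≤ j.val ∧ x = v j} := by
  ext x
  simp only [S, Set.mem_ofPred_eq, List.mem_map, List.mem_drop_iff_getElem, List.length_ofFn,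
    List.getElem_ofFn]
  constructor
  · rintro ⟨_, ⟨i, hi, rfl⟩, rfl⟩
    exact ⟨⟨k + i, by omega⟩, by change k ≤ k + i; omega, rfl⟩
  · rintro ⟨j, hj, rfl⟩
    have := j.isLt
    have e : (⟨k + (j.val - k), by omega⟩ : Fin n) = j :=
      Fin.ext (by change k + (j.val - k) = j.val; omega)
    refine ⟨(u ⟨k + (j.val - k), by omega⟩, v ⟨k + (j.val - k), by omega⟩),
      ⟨j.val - k, by omega, rfl⟩, ?_⟩
    rw [e]

theorem mx_eq {n : ℕ} (u v : Fin n → α) (k : ℕ) :
    mx u v k = F ((List.ofFn fun i => (u i, v i)).drop k) ∪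
      S ((List.ofFn fun i => (u i, v i)).take k) := by
  rw [F_drop, S_take]
  rfl

theorem mx_eq' {n : ℕ} (u v : Fin n → α) (k : ℕ) :
    mx v u k = S ((List.ofFn fun i => (u i, v i)).drop k) ∪
      F ((List.ofFn fun i => (u i, v i)).take k) := by
  rw [S_drop, F_take]
  rfl

theorem ord_of_mix {P : Set α → Prop} {B B' : Set α} (h : Mix P B B') : Ord P B B' := by
  obtain ⟨n, u, v, hu, hv, rfl, rfl, h⟩ := h
  refine ⟨List.ofFn fun i => (u i, v i), ?_, ?_, ?_, ?_, ?_⟩
  · rw [List.map_ofFn, List.nodup_ofFn]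
    exact hu
  · rw [List.map_ofFn, List.nodup_ofFn]
    exact hv
  · ext x
    simp [F, List.mem_ofFn]
  · ext x
    simp [S, List.mem_ofFn]
  · intro L₁ L₂ hL
    have hlen : L₁.length ≤ n := by
      have := congrArg List.length hL
      rw [List.length_ofFn, List.length_append] at this
      omega
    have e1 : L₁ = (List.ofFn fun i => (u i, v i)).take L₁.length := by
      rw [hL, List.take_left']
      rfl
    have e2 : L₂ = (List.ofFn fun i => (u i, v i)).drop L₁.length := by
      rw [hL, List.drop_left']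
      rfl
    have := h L₁.length hlen
    rw [mx_eq, mx_eq', ← e1, ← e2] at this
    exact this

theorem mix_of_ord {P : Set α → Prop} {B B' : Set α} (h : Ord P B B') : Mix P B B' := by
  obtain ⟨L, h1, h2, rfl, rfl, h⟩ := h
  have e : L = List.ofFn fun i => ((L.get i).1, (L.get i).2) := by
    simp
  refine ⟨L.length, fun i => (L.get i).1, fun i => (L.get i).2, ?_, ?_, ?_, ?_, fun k hk => ?_⟩
  · intro i j hij
    have h3 := List.nodup_iff_injective_get.mp h1
    have := @h3 ⟨i.val, by rw [List.length_map]; exact i.isLt⟩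
      ⟨j.val, by rw [List.length_map]; exact j.isLt⟩ (by simpa using hij)
    exact Fin.ext (by simpa using this)
  · intro i j hij
    have h3 := List.nodup_iff_injective_get.mp h2
    have := @h3 ⟨i.val, by rw [List.length_map]; exact i.isLt⟩
      ⟨j.val, by rw [List.length_map]; exact j.isLt⟩ (by simpa using hij)
    exact Fin.ext (by simpa using this)
  · ext x
    simp only [F, Set.mem_range, Set.mem_ofPred_eq, List.mem_map]
    constructor
    · rintro ⟨i, rfl⟩
      exact ⟨L.get i, List.get_mem _ _, rfl⟩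
    · rintro ⟨p, hp, rfl⟩
      obtain ⟨i, rfl⟩ := List.get_of_mem hp
      exact ⟨i, rfl⟩
  · ext x
    simp only [S, Set.mem_range, Set.mem_ofPred_eq, List.mem_map]
    constructor
    · rintro ⟨i, rfl⟩
      exact ⟨L.get i, List.get_mem _ _, rfl⟩
    · rintro ⟨p, hp, rfl⟩
      obtain ⟨i, rfl⟩ := List.get_of_mem hp
      exact ⟨i, rfl⟩
  · rw [mx_eq, mx_eq', ← e]
    exact h _ _ (List.take_append_drop k L).symm

/-- from lists of pairs to permutations -/
theorem toFin {M : Matroid α} {r : ℕ} (b b' : Fin r → α) (hb : Function.Injective b)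
    (hb' : Function.Injective b') (h : Ord M.IsBase (Set.range b) (Set.range b')) :
    ∃ σ σ' : Equiv.Perm (Fin r), ∀ i : Fin (r + r), M.IsBase (block (b ∘ σ) (b' ∘ σ') i) := by
  obtain ⟨n, u, v, hu, hv, hru, hrv, h⟩ := mix_of_ord h
  have card : ∀ {m : ℕ} (w : Fin m → α), Function.Injective w → (Set.range w).ncard = m := by
    intro m w hw
    rw [← Set.image_univ, Set.ncard_image_of_injective _ hw, Set.ncard_univ, Nat.card_fin]
  have hn : n = r := by rw [← card u hu, hru, card b hb]
  subst hn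
  obtain ⟨σ, rfl⟩ := exists_perm b u hu hru.symm
  obtain ⟨σ', rfl⟩ := exists_perm b' v hv hrv.symm
  refine ⟨σ, σ', fun i => ?_⟩
  rcases Nat.lt_or_ge i.val n with hi | hi
  · have := (h i.val hi.le).1
    rw [mx_lt _ _ _ hi] at this
    exact this
  · have hi2 := i.isLt
    have := (h (i.val - n) (by omega)).2
    rw [mx_ge _ _ _ (by omega)] at this
    have e : (⟨n + (i.val - n), by omega⟩ : Fin (n + n)) = i := Fin.ext (by
      change n + (i.val - n) = i.val
      omega)
    rw [e] at this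
    exact this

/-- the basic pairs -/
theorem ofFin {M : Matroid α} {B B' : Set α} (hB : M.IsBase B) (hB' : M.IsBase B')
    (hf : B.Finite) (hd : (B \ B').ncard ≤ 7) : Ord M.IsBase B B' := by
  have h := part (S := Set.univ) (B' := B') M hB (by rwa [Set.inter_univ])
    (by simpa using hB') (by rwa [Set.inter_univ])
  rw [Set.inter_univ, Set.inter_univ] at h
  refine ord_of_mix ?_
  obtain ⟨n, u, v, hu, hv, hru, hrv, h⟩ := h
  refine ⟨n, u, v, hu, hv, hru, hrv, fun k hk => ?_⟩
  have h3 := (h k hk).1.2.2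
  have h4 := (h k hk).2.2.2
  have e : B \ Set.univ = ∅ := by
    ext t
    simp
  rw [e, Set.union_empty] at h3 h4
  exact ⟨h3, h4⟩

end Pool.Agent.Gab7d_h87
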