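import Pool.Agent.Gab7c_h87.Final
import Pool.Agent.Gab7c47.Common

/-!
# Direct sums
-/

set_option autoImplicit false

namespace Pool.Agent.Gab7d_h87

open Pool.Agent.Gabow87
open scoped Matroid

/-- the terms `u j` with `k ≤ j` and the terms `v j` with `j < k` -/
def mx {α : Type*} {n : ℕ} (u v : Fin n → α) (k : ℕ) : Set α :=
  {x | (∃ j : Fin n, k ≤ j.val ∧ x = u j) ∨ (∃ j : Fin n, j.val < k ∧ x = v j)}

/-- the two sets can be listed such that all blocks have the property -/
def Mix {α : Type*} (P : Set α → Prop) (B B' : Set α) : Prop :=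
  ∃ (n : ℕ) (u v : Fin n → α), Function.Injective u ∧ Function.Injective v ∧
    Set.range u = B ∧ Set.range v = B' ∧ ∀ k ≤ n, P (mx u v k) ∧ P (mx v u k)

theorem mx_append {α : Type*} {n m : ℕ} (u v : Fin n → α) (u' v' : Fin m → α) (k : ℕ) :
    mx (Fin.append u u') (Fin.append v v') k = mx u v (min k n) ∪ mx u' v' (k - n) := by
  ext x
  constructor
  · rintro (⟨j, hj, rfl⟩ | ⟨j, hj, rfl⟩)
    · revert hj
      refine Fin.addCases (fun j => ?_) (fun j => ?_) j
      · intro hj
        rw [Fin.val_castAdd] at hj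
        rw [Fin.append_left]
        exact Or.inl (Or.inl ⟨j, by omega, rfl⟩)
      · intro hj
        rw [Fin.val_natAdd] at hj
        rw [Fin.append_right]
        exact Or.inr (Or.inl ⟨j, by omega, rfl⟩)
    · revert hj
      refine Fin.addCases (fun j => ?_) (fun j => ?_) j
      · intro hj
        rw [Fin.val_castAdd] at hj
        rw [Fin.append_left]
        have := j.isLt
        exact Or.inl (Or.inr ⟨j, by omega, rfl⟩)
      · intro hj
        rw [Fin.val_natAdd] at hj
        rw [Fin.append_right]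
        exact Or.inr (Or.inr ⟨j, by omega, rfl⟩)
  · rintro ((⟨j, hj, rfl⟩ | ⟨j, hj, rfl⟩) | (⟨j, hj, rfl⟩ | ⟨j, hj, rfl⟩))
    · have := j.isLt
      exact Or.inl ⟨Fin.castAdd m j, by rw [Fin.val_castAdd]; omega, by rw [Fin.append_left]⟩
    · exact Or.inr ⟨Fin.castAdd m j, by rw [Fin.val_castAdd]; omega, by rw [Fin.append_left]⟩
    · exact Or.inl ⟨Fin.natAdd n j, by rw [Fin.val_natAdd]; omega, by rw [Fin.append_right]⟩
    · exact Or.inr ⟨Fin.natAdd n j, by rw [Fin.val_natAdd]; omega, by rw [Fin.append_right]⟩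

theorem range_append {α : Type*} {n m : ℕ} (u : Fin n → α) (u' : Fin m → α) :
    Set.range (Fin.append u u') = Set.range u ∪ Set.range u' := by
  ext x
  constructor
  · rintro ⟨j, rfl⟩
    refine Fin.addCases (fun j => ?_) (fun j => ?_) j
    · rw [Fin.append_left]; exact Or.inl ⟨j, rfl⟩
    · rw [Fin.append_right]; exact Or.inr ⟨j, rfl⟩
  · rintro (⟨j, rfl⟩ | ⟨j, rfl⟩)
    · exact ⟨Fin.castAdd m j, by rw [Fin.append_left]⟩
    · exact ⟨Fin.natAdd n j, by rw [Fin.append_right]⟩

theorem inj_append {α : Type*} {n m : ℕ} (u : Fin n → α) (u' : Fin m → α)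
    (h : Function.Injective u) (h' : Function.Injective u')
    (hd : Disjoint (Set.range u) (Set.range u')) : Function.Injective (Fin.append u u') := by
  rw [Fin.append_injective_iff]
  exact ⟨h, h', fun i j hij => Set.disjoint_left.mp hd ⟨i, rfl⟩ ⟨j, hij.symm⟩⟩

/-- **direct sum of two parts** -/
theorem Mix.sum {α : Type*} {P₁ P₂ P : Set α → Prop} {A A' C C' : Set α}
    (h1 : Mix P₁ A A') (h2 : Mix P₂ C C') (hd : Disjoint A C) (hd' : Disjoint A' C')
    (h : ∀ X Y, P₁ X → P₂ Y → P (X ∪ Y)) : Mix P (A ∪ C) (A' ∪ C') := by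
  obtain ⟨n, u, v, hu, hv, rfl, rfl, h3⟩ := h1
  obtain ⟨m, u', v', hu', hv', rfl, rfl, h4⟩ := h2
  refine ⟨n + m, Fin.append u u', Fin.append v v', inj_append _ _ hu hu' hd,
    inj_append _ _ hv hv' hd', range_append _ _, range_append _ _, fun k hk => ?_⟩
  rw [mx_append, mx_append]
  exact ⟨h _ _ (h3 _ (min_le_right _ _)).1 (h4 _ (by omega)).1,
    h _ _ (h3 _ (min_le_right _ _)).2 (h4 _ (by omega)).2⟩

theorem mx_sub {α : Type*} {n : ℕ} (u v : Fin n → α) (k : ℕ) :
    mx u v k ⊆ Set.range u ∪ Set.range v := by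
  rintro x (⟨j, -, rfl⟩ | ⟨j, -, rfl⟩)
  · exact Or.inl ⟨j, rfl⟩
  · exact Or.inr ⟨j, rfl⟩

theorem mx_full {α : Type*} {n : ℕ} (u v : Fin n → α) : mx u v n = Set.range v := by
  ext x
  constructor
  · rintro (⟨j, hj, rfl⟩ | ⟨j, -, rfl⟩)
    · have := j.isLt
      omega
    · exact ⟨j, rfl⟩
  · rintro ⟨j, rfl⟩
    exact Or.inr ⟨j, j.isLt, rfl⟩

theorem mx_lt {α : Type*} {n : ℕ} (u v : Fin n → α) (k : ℕ) (hk : k < n) :
    mx u v k = block u v ⟨k, by omega⟩ := by
  ext x
  exact (mem_block_lt u v ⟨k, by omega⟩ hk x).symm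

theorem mx_ge {α : Type*} {n : ℕ} (u v : Fin n → α) (k : ℕ) (hk : k < n) :
    mx v u k = block u v ⟨n + k, by omega⟩ := by
  ext x
  rw [mem_block_ge u v ⟨n + k, by omega⟩ (by change n ≤ n + k; omega) x]
  change _ ↔ (∃ j : Fin n, n + k - n ≤ j.val ∧ x = v j) ∨ (∃ j : Fin n, j.val < n + k - n ∧ x = u j)
  rw [Nat.add_sub_cancel_left]
  rfl

/-- a list of a finite set -/
theorem exists_list {α : Type*} {S : Set α} {n : ℕ} (hf : S.Finite) (hn : S.ncard = n) :
    ∃ u : Fin n → α, Function.Injective u ∧ Set.range u = S := by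
  have := hf.to_subtype
  have e : Nat.card S = n := hn
  refine ⟨fun i => ((Finite.equivFinOfCardEq e).symm i : S), ?_, ?_⟩
  · intro i j hij
    exact (Finite.equivFinOfCardEq e).symm.injective (Subtype.ext hij)
  · ext x
    constructor
    · rintro ⟨i, rfl⟩
      exact Subtype.coe_prop _
    · intro hx
      exact ⟨Finite.equivFinOfCardEq e ⟨x, hx⟩, by simp⟩

/-- one part -/
theorem part {α : Type*} (M : Matroid α) {B B' S : Set α} (hB : M.IsBase B)
    (hBf : (B ∩ S).Finite) (hBS : M.IsBase ((B' ∩ S) ∪ (B \ S)))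
    (hd : ((B \ B') ∩ S).ncard ≤ 7) :
    Mix (fun X => X ⊆ S ∧ X ⊆ B ∪ B' ∧ M.IsBase (X ∪ (B \ S))) (B ∩ S) (B' ∩ S) := by
  have hI : M.Indep (B \ S) := hB.indep.subset Set.sdiff_subset
  have d1 : ∀ X ⊆ S, Disjoint X (B \ S) := fun X hX =>
    Set.disjoint_left.mpr fun t ht ht' => ht'.2 (hX ht)
  have b1 : (M ／ (B \ S)).IsBase (B ∩ S) := by
    rw [hI.contract_isBase_iff, Set.inter_union_sdiff]
    exact ⟨hB, d1 _ Set.inter_subset_right⟩
  have b2 : (M ／ (B \ S)).IsBase (B' ∩ S) := by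
    rw [hI.contract_isBase_iff]
    exact ⟨hBS, d1 _ Set.inter_subset_right⟩
  obtain ⟨u, hu, hru⟩ := exists_list hBf rfl
  obtain ⟨v, hv, hrv⟩ := exists_list (S := B' ∩ S)
    ((Set.encard_lt_top_iff.mp (b1.encard_eq_encard_of_isBase b2 ▸
      Set.encard_lt_top_iff.mpr hBf))) (b2.ncard_eq_ncard_of_isBase b1)
  have c1 : (M ／ (B \ S)).IsBase (Set.range u) := by
    rw [hru]
    exact b1
  have c2 : (M ／ (B \ S)).IsBase (Set.range v) := by
    rw [hrv]
    exact b2
  obtain ⟨σ, σ', h⟩ := Pool.Agent.Gab7c47.few (N := 7)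
    (fun M _ hr b b' h1 h2 h3 h4 => Pool.Agent.Gab7c_h87.gabow_le_seven M hr b b' h1 h2 h3 h4)
    (M ／ (B \ S)) u v hu hv c1 c2 (by
      rw [hru, hrv]
      refine le_of_eq_of_le (congrArg _ ?_) hd
      ext t
      simp only [Set.mem_sdiff, Set.mem_inter_iff]
      tauto)
  have r1 : Set.range (u ∘ σ) = B ∩ S := by rw [σ.surjective.range_comp, hru]
  have r2 : Set.range (v ∘ σ') = B' ∩ S := by rw [σ'.surjective.range_comp, hrv]
  have key : ∀ X, X ⊆ (B ∪ B') ∩ S → (M ／ (B \ S)).IsBase X →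
      X ⊆ S ∧ X ⊆ B ∪ B' ∧ M.IsBase (X ∪ (B \ S)) :=
    fun X hX h => ⟨fun t ht => (hX ht).2, fun t ht => (hX ht).1, (hI.contract_isBase_iff.mp h).1⟩
  have sub1 : ∀ k, mx (u ∘ σ) (v ∘ σ') k ⊆ (B ∪ B') ∩ S := fun k => (mx_sub _ _ k).trans (by
    rw [r1, r2, Set.union_inter_distrib_right])
  have sub2 : ∀ k, mx (v ∘ σ') (u ∘ σ) k ⊆ (B ∪ B') ∩ S := fun k => (mx_sub _ _ k).trans (by
    rw [r1, r2, Set.union_inter_distrib_right, Set.union_comm])
  refine ⟨_, u ∘ σ, v ∘ σ', hu.comp σ.injective, hv.comp σ'.injective, r1, r2, fun k hk => ?_⟩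
  rcases Nat.lt_or_eq_of_le hk with hk | rfl
  · refine ⟨key _ (sub1 k) ?_, key _ (sub2 k) ?_⟩
    · rw [mx_lt _ _ _ hk]
      exact h _
    · rw [mx_ge _ _ _ hk]
      exact h _
  · refine ⟨key _ (sub1 _) ?_, key _ (sub2 _) ?_⟩
    · rw [mx_full, r2]
      exact b2
    · rw [mx_full, r1]
      exact b1

/-- all parts with labels in a finite set -/
theorem parts {α ι : Type*} (M : Matroid α) (f : α → ι) {B B' : Set α} (hBf : B.Finite)
    (hB : M.IsBase B) (hB' : M.IsBase B')
    (hf : ∀ X Y, M.IsBase X → M.IsBase Y → X ⊆ B ∪ B' → Y ⊆ B ∪ B' → ∀ k,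
      M.IsBase ((X ∩ f ⁻¹' {k}) ∪ (Y \ f ⁻¹' {k})))
    (hd : ∀ k, ((B \ B') ∩ f ⁻¹' {k}).ncard ≤ 7) (T : Finset ι) :
    Mix (fun X => X ⊆ f ⁻¹' (T : Set ι) ∧ X ⊆ B ∪ B' ∧ M.IsBase (X ∪ (B \ f ⁻¹' (T : Set ι))))
      (B ∩ f ⁻¹' (T : Set ι)) (B' ∩ f ⁻¹' (T : Set ι)) := by
  classical
  induction T using Finset.induction_on with
  | empty =>
    refine ⟨0, Fin.elim0, Fin.elim0, fun i => i.elim0, fun i => i.elim0, ?_, ?_, fun k hk => ?_⟩
    · simp [Set.range_eq_empty]
    · simp [Set.range_eq_empty]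
    · have e : ∀ u v : Fin 0 → α, mx u v k = ∅ := by
        intro u v
        ext x
        constructor
        · rintro (⟨j, -⟩ | ⟨j, -⟩) <;> exact j.elim0
        · intro h
          exact absurd h (by simp)
      simp only [e]
      simpa using hB
  | insert k T hk ih =>
    have h1 := part M hB (hBf.subset Set.inter_subset_left) (hf _ _ hB' hB
      Set.subset_union_right Set.subset_union_left k) (hd k)
    have e : f ⁻¹' ((insert k T : Finset ι) : Set ι) = f ⁻¹' {k} ∪ f ⁻¹' (T : Set ι) := by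
      ext t
      simp
    have dj : Disjoint (f ⁻¹' {k}) (f ⁻¹' (T : Set ι)) := by
      rw [Set.disjoint_left]
      intro t ht ht'
      have : f t = k := ht
      exact hk (this ▸ ht')
    rw [e, Set.inter_union_distrib_left, Set.inter_union_distrib_left]
    refine h1.sum ih (dj.mono Set.inter_subset_right Set.inter_subset_right)
      (dj.mono Set.inter_subset_right Set.inter_subset_right) ?_
    rintro X Y ⟨hX, hXB, hX'⟩ ⟨hY, hYB, hY'⟩
    refine ⟨Set.union_subset_union hX hY, Set.union_subset hXB hYB, ?_⟩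
    have hBs : ∀ S : Set α, B \ S ⊆ B ∪ B' := fun S => Set.sdiff_subset.trans Set.subset_union_left
    have := hf _ _ hX' hY' (Set.union_subset hXB (hBs _)) (Set.union_subset hYB (hBs _)) k
    convert this using 1
    ext t
    have h1 : t ∈ X → t ∈ f ⁻¹' {k} := fun h => hX h
    have h2 : t ∈ Y → t ∈ f ⁻¹' (T : Set ι) := fun h => hY h
    have h3 : t ∈ f ⁻¹' {k} → t ∉ f ⁻¹' (T : Set ι) := fun h => Set.disjoint_left.mp dj h
    simp only [Set.mem_union, Set.mem_sdiff, Set.mem_inter_iff]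
    tauto

/-- two lists of the same set -/
theorem exists_perm {α : Type*} {r : ℕ} (b w : Fin r → α)
    (hw : Function.Injective w) (h : Set.range b = Set.range w) :
    ∃ σ : Equiv.Perm (Fin r), b ∘ σ = w := by
  have : ∀ i, ∃ j, b j = w i := fun i => by
    have : w i ∈ Set.range b := h ▸ ⟨i, rfl⟩
    exact this
  choose g hg using this
  have hgi : Function.Injective g := fun i j hij => hw (by rw [← hg i, ← hg j, hij])
  exact ⟨Equiv.ofBijective g (Finite.injective_iff_bijective.mp hgi), funext hg⟩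

/-- **Gabow's conjecture for bases which differ in at most seven elements of every part** of a
decomposition of the matroid into a direct sum. -/
theorem gabow_sum {α ι : Type*} (M : Matroid α) (f : α → ι)
    {r : ℕ} (b b' : Fin r → α)
    (hf : ∀ X Y, M.IsBase X → M.IsBase Y → X ⊆ Set.range b ∪ Set.range b' →
      Y ⊆ Set.range b ∪ Set.range b' → ∀ k, M.IsBase ((X ∩ f ⁻¹' {k}) ∪ (Y \ f ⁻¹' {k}))) (hb : Function.Injective b) (hb' : Function.Injective b')
    (hB : M.IsBase (Set.range b)) (hB' : M.IsBase (Set.range b'))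
    (hd : ∀ k, ((Set.range b \ Set.range b') ∩ f ⁻¹' {k}).ncard ≤ 7) :
    ∃ σ σ' : Equiv.Perm (Fin r), ∀ i : Fin (r + r), M.IsBase (block (b ∘ σ) (b' ∘ σ') i) := by
  classical
  let T : Finset ι := (Finset.univ.image fun i => f (b i)) ∪ (Finset.univ.image fun i => f (b' i))
  have t1 : Set.range b ⊆ f ⁻¹' (T : Set ι) := by
    rintro _ ⟨i, rfl⟩
    simp [T]
  have t2 : Set.range b' ⊆ f ⁻¹' (T : Set ι) := by
    rintro _ ⟨i, rfl⟩
    simp [T]
  have h := parts M f (Set.finite_range b) hB hB' hf hd T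
  rw [Set.inter_eq_left.mpr t1, Set.inter_eq_left.mpr t2, Set.sdiff_eq_empty.mpr t1] at h
  obtain ⟨n, u, v, hu, hv, hru, hrv, h⟩ := h
  have card : ∀ {m : ℕ} (w : Fin m → α), Function.Injective w → (Set.range w).ncard = m := by
    intro m w hw
    rw [← Set.image_univ, Set.ncard_image_of_injective _ hw, Set.ncard_univ, Nat.card_fin]
  have hn : n = r := by rw [← card u hu, hru, card b hb]
  subst hn
  obtain ⟨σ, rfl⟩ := exists_perm b u hu hru.symm
  obtain ⟨σ', rfl⟩ := exists_perm b' v hv hrv.symm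
  refine ⟨σ, σ', fun i => ?_⟩
  rcases Nat.lt_or_ge i.val n with hi | hi
  · have := (h i.val hi.le).1.2.2
    rw [mx_lt _ _ _ hi, Set.union_empty] at this
    exact this
  · have hi2 := i.isLt
    have := (h (i.val - n) (by omega)).2.2.2
    rw [mx_ge _ _ _ (by omega), Set.union_empty] at this
    have e : (⟨n + (i.val - n), by omega⟩ : Fin (n + n)) = i := Fin.ext (by
      change n + (i.val - n) = i.val
      omega)
    rw [e] at this
    exact this

section Minor

open Pool.Agent.Gab7c47 (io io_lt io_surj block_zero block_mid block_ins long)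

/-- The label classes are separators of the minor `(M | (B ∪ B')) / (B ∩ B')`. -/
def Sep {α ι : Type*} (M : Matroid α) (f : α → ι) (B B' : Set α) : Prop :=
  ∀ X Y, M.IsBase X → M.IsBase Y → B ∩ B' ⊆ X → X ⊆ B ∪ B' → B ∩ B' ⊆ Y → Y ⊆ B ∪ B' →
    ∀ k, M.IsBase ((X ∩ f ⁻¹' {k}) ∪ (Y \ f ⁻¹' {k}))

theorem minor {α ι : Type*} (f : α → ι) (r : ℕ) :
    ∀ (M : Matroid α) (b b' : Fin r → α), Function.Injective b →
    Function.Injective b' → M.IsBase (Set.range b) → M.IsBase (Set.range b') →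
    Sep M f (Set.range b) (Set.range b') →
    (∀ k, ((Set.range b \ Set.range b') ∩ f ⁻¹' {k}).ncard ≤ 7) →
    ∃ σ σ' : Equiv.Perm (Fin r), ∀ i : Fin (r + r),
      M.IsBase (Pool.Agent.Gab7c47.block (b ∘ σ) (b' ∘ σ') i) := by
  induction r with
  | zero =>
    intro M b b' hb hb' hB hB' _ _
    exact ⟨1, 1, fun i => absurd i.isLt (by omega)⟩
  | succ r ih =>
    intro M b b' hb hb' hB hB' hS hN
    by_cases hx : ∃ x, x ∈ Set.range b ∧ x ∈ Set.range b'
    · obtain ⟨x, ⟨p, hp⟩, ⟨q, hq⟩⟩ := hx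
      have hI : M.Indep {x} := hB.indep.subset (by
        rintro _ rfl
        exact ⟨p, hp⟩)
      have rng : ∀ (a : Fin (r + 1) → α) (k : Fin (r + 1)), Function.Injective a → a k = x →
          Set.range (a ∘ k.succAbove) = Set.range a \ {x} := by
        intro a k ha hk
        ext y
        constructor
        · rintro ⟨i, rfl⟩
          refine ⟨⟨_, rfl⟩, fun h => ?_⟩
          exact Fin.succAbove_ne k i (ha (h.trans hk.symm))
        · rintro ⟨⟨i, rfl⟩, hi⟩
          have hik : i ≠ k := by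
            rintro rfl
            exact hi hk
          obtain ⟨j, hj⟩ := Fin.exists_succAbove_eq hik
          exact ⟨j, by simp [hj]⟩
      have rb := rng b p hb hp
      have rb' := rng b' q hb' hq
      have base : ∀ X : Set α, M.IsBase X → x ∈ X → (M ／ {x}).IsBase (X \ {x}) := by
        intro X hX hxX
        rw [hI.contract_isBase_iff]
        refine ⟨?_, Set.disjoint_sdiff_left⟩
        rwa [Set.sdiff_union_of_subset (by simpa using hxX)]
      have B1 : (M ／ {x}).IsBase (Set.range (b ∘ p.succAbove)) := by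
        rw [rb]
        exact base _ hB ⟨p, hp⟩
      have B2 : (M ／ {x}).IsBase (Set.range (b' ∘ q.succAbove)) := by
        rw [rb']
        exact base _ hB' ⟨q, hq⟩
      have hNe : Set.range (b ∘ p.succAbove) \ Set.range (b' ∘ q.succAbove) =
          Set.range b \ Set.range b' := by
        rw [rb, rb']
        ext y
        constructor
        · rintro ⟨⟨h1, h2⟩, h3⟩
          exact ⟨h1, fun h => h3 ⟨h, h2⟩⟩
        · rintro ⟨h1, h2⟩
          refine ⟨⟨h1, ?_⟩, fun h => h2 h.1⟩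
          rintro rfl
          exact h2 ⟨q, hq⟩
      have hxb : x ∈ Set.range b := ⟨p, hp⟩
      have hxb' : x ∈ Set.range b' := ⟨q, hq⟩
      have hS' : Sep (M ／ {x}) f (Set.range (b ∘ p.succAbove)) (Set.range (b' ∘ q.succAbove)) := by
        intro X Y hX hY hX1 hX2 hY1 hY2 k
        rw [rb, rb'] at hX1 hX2 hY1 hY2
        rw [hI.contract_isBase_iff] at hX hY ⊢
        have lo : ∀ Z : Set α, (Set.range b \ {x}) ∩ (Set.range b' \ {x}) ⊆ Z →
            Set.range b ∩ Set.range b' ⊆ Z ∪ {x} := by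
          intro Z hZ t ht
          by_cases e : t = x
          · exact Or.inr e
          · exact Or.inl (hZ ⟨⟨ht.1, e⟩, ⟨ht.2, e⟩⟩)
        have up : ∀ Z : Set α, Z ⊆ (Set.range b \ {x}) ∪ (Set.range b' \ {x}) →
            Z ∪ {x} ⊆ Set.range b ∪ Set.range b' := by
          rintro Z hZ t (ht | rfl)
          · rcases hZ ht with h | h
            · exact Or.inl h.1
            · exact Or.inr h.1
          · exact Or.inl hxb
        have h := hS _ _ hX.1 hY.1 (lo X hX1) (up X hX2) (lo Y hY1) (up Y hY2) k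
        have hxX : x ∉ X := fun h => Set.disjoint_left.mp hX.2 h rfl
        have hxY : x ∉ Y := fun h => Set.disjoint_left.mp hY.2 h rfl
        refine ⟨?_, ?_⟩
        · convert h using 1
          ext t
          simp only [Set.mem_union, Set.mem_inter_iff, Set.mem_sdiff, Set.mem_singleton_iff]
          tauto
        · rw [Set.disjoint_singleton_right]
          rintro (h | h)
          · exact hxX h.1
          · exact hxY h.1
      obtain ⟨s, s', hs⟩ := ih (M ／ {x}) (b ∘ p.succAbove) (b' ∘ q.succAbove)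
        (hb.comp Fin.succAbove_right_injective) (hb'.comp Fin.succAbove_right_injective) B1 B2 hS'
        (by rw [hNe]; exact hN)
      obtain ⟨σ, hσ0, hσ⟩ := long p s
      obtain ⟨σ', hσ0', hσ'⟩ := long q s'
      refine ⟨σ, σ', fun i => ?_⟩
      by_cases e0 : i.val = 0
      · have : i = ⟨0, by omega⟩ := Fin.ext e0
        rw [this, block_zero, Set.range_comp, σ.range_eq_univ, Set.image_univ]
        exact hB
      · by_cases e1 : i.val = r + 1
        · have : i = ⟨r + 1, by omega⟩ := Fin.ext e1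
          rw [this, block_mid, Set.range_comp, σ'.range_eq_univ, Set.image_univ]
          exact hB'
        · obtain ⟨t, ht, hti⟩ := io_surj (p := 0) (Nat.zero_le r) i.2 e0 (by omega)
          have e : i = ⟨io 0 r (⟨t, ht⟩ : Fin (r + r)).val, io_lt ht⟩ := Fin.ext hti.symm
          rw [e, block_ins (b ∘ σ) (b' ∘ σ') ((b ∘ p.succAbove) ∘ s) ((b' ∘ q.succAbove) ∘ s') x
            (by simp [hσ0, hp]) (by simp [hσ0', hq]) (fun i => by simp [hσ]) (fun i => by simp [hσ'])]
          have h3 := (hI.contract_isBase_iff.1 (hs ⟨t, ht⟩)).1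
          rwa [Set.union_singleton] at h3
    · have hd : Set.range b ∩ Set.range b' = ∅ := by
        ext y
        constructor
        · rintro ⟨h1, h2⟩
          exact absurd ⟨y, h1, h2⟩ hx
        · intro h
          exact absurd h (by simp)
      refine gabow_sum M f b b' (fun X Y hX hY h1 h2 k => ?_) hb hb' hB hB' hN
      exact hS X Y hX hY (by rw [hd]; exact Set.empty_subset _) h1
        (by rw [hd]; exact Set.empty_subset _) h2 k

end Minor

end Pool.Agent.Gab7d_h87
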